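import Pool.Agent.E8helper22.SZ.Stm

/-!
# Project SZ: HALF (given BAL)
-/

set_option autoImplicit false

namespace Pool.Agent.E8helper56.SZ

open Finset Pool.Agent.E8helper22.SZ

theorem card_periodic (P : ℕ → Prop) [DecidablePred P] (p : ℕ) (hP : Function.Periodic P p)
    (B : ℕ) : ((Icc 1 (p * B)).filter P).card = B * p.count P := by
  have key : ∀ B : ℕ, ((Ico 1 (1 + p * B)).filter P).card = B * p.count P := by
    intro B
    induction B with
    | zero => simp
    | succ B ih =>
      have h1 : Ico 1 (1 + p * (B + 1)) = Ico 1 (1 + p * B) ∪ Ico (1 + p * B) (1 + p * B + p) := by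
        rw [Finset.Ico_union_Ico_eq_Ico (by omega) (by omega)]
        congr 1
        ring
      have h2 : Disjoint ((Ico 1 (1 + p * B)).filter P)
          ((Ico (1 + p * B) (1 + p * B + p)).filter P) := by
        apply Finset.disjoint_filter_filter
        exact Finset.Ico_disjoint_Ico_consecutive _ _ _
      rw [h1, Finset.filter_union, Finset.card_union_of_disjoint h2, ih,
        Nat.filter_Ico_card_eq_of_periodic _ _ _ hP]
      ring
  have h3 : Icc 1 (p * B) = Ico 1 (1 + p * B) := by
    ext x
    simp only [Finset.mem_Icc, Finset.mem_Ico]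
    omega
  rw [h3, key]

theorem cv_periodic {q p q' : ℕ} (w n : ℕ) (χ : DirichletCharacter ℂ q) (h : q = p * q')
    (b : ℕ) : cv χ (n + q' * w * (b + p)) = cv χ (n + q' * w * b) := by
  unfold cv
  have h1 : ((n + q' * w * (b + p) : ℕ) : ZMod q) = ((n + q' * w * b : ℕ) : ZMod q) := by
    have h2 : n + q' * w * (b + p) = n + q' * w * b + q * w := by
      rw [h]; ring
    rw [h2]
    push_cast
    rw [ZMod.natCast_self]
    ring
  rw [h1]

theorem cv_mem {q : ℕ} {χ : DirichletCharacter ℂ q} (hχ : RealPrim q χ) (m : ℕ) :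
    cv χ m = 0 ∨ cv χ m = 1 ∨ cv χ m = -1 := by
  unfold cv
  rcases hχ.quad (m : ZMod q) with h | h | h
  · left; rw [h]; simp
  · right; left; rw [h]; simp
  · right; right; rw [h]; simp

theorem half_block {p : ℕ} (hp : p.Prime) (hp2 : p ≠ 2) (f : ℕ → ℝ)
    (hf : ∀ b, f b = 0 ∨ f b = 1 ∨ f b = -1) (hs : ∑ b ∈ range p, f b = 0) :
    2 * ((range p).filter (fun b => f b = -1)).card ≤ p - 1 := by
  classical
  have h1 : ∀ b, f b = (if f b = 1 then (1 : ℝ) else 0) - (if f b = -1 then (1 : ℝ) else 0) := by
    intro b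
    rcases hf b with h | h | h
    · rw [h]; norm_num
    · rw [h]; norm_num
    · rw [h]; norm_num
  have h2 : ∑ b ∈ range p, f b = (((range p).filter (fun b => f b = 1)).card : ℝ) -
      (((range p).filter (fun b => f b = -1)).card : ℝ) := by
    rw [Finset.sum_congr rfl (fun b _ => h1 b), Finset.sum_sub_distrib]
    simp only [Finset.sum_boole]
  have h3 : ((range p).filter (fun b => f b = 1)).card =
      ((range p).filter (fun b => f b = -1)).card := by
    rw [hs] at h2
    have : (((range p).filter (fun b => f b = 1)).card : ℝ) =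
      (((range p).filter (fun b => f b = -1)).card : ℝ) := by linarith
    exact_mod_cast this
  have h4 : ((range p).filter (fun b => f b = 1)).card +
      ((range p).filter (fun b => f b = -1)).card ≤ p := by
    have hd : Disjoint ((range p).filter (fun b => f b = 1))
        ((range p).filter (fun b => f b = -1)) := by
      rw [Finset.disjoint_filter]
      intro b _ hb hb'
      rw [hb] at hb'
      norm_num at hb'
    rw [← Finset.card_union_of_disjoint hd]
    calc _ ≤ (range p).card := Finset.card_le_card (by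
          intro x hx
          simp only [Finset.mem_union, Finset.mem_filter] at hx
          rcases hx with hx | hx <;> exact hx.1)
      _ = p := Finset.card_range p
  have h5 : Odd p := hp.odd_of_ne_two hp2
  obtain ⟨k, hk⟩ := h5
  omega

theorem t_HALF (h : S_BAL) : S_HALF := by
  classical
  intro q p q' w χ hq hχ hp hp2 hqp hpq' hpw n B
  have hb := h q p q' w χ hq hχ hp hqp hpw n
  have hblock := half_block hp hp2 (fun b => cv χ (n + q' * w * b)) (fun b => cv_mem hχ _) hb
  have hdvd : ∀ b : ℕ, (p ∣ b + p) ↔ p ∣ b := fun b => Nat.dvd_add_self_right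
  have per1 : Function.Periodic (fun b => ¬ p ∣ b ∧ cv χ (n + q' * w * b) = -1) p := by
    intro b
    simp only [eq_iff_iff]
    rw [hdvd, cv_periodic w n χ hqp]
  have per2 : Function.Periodic (fun b => ¬ p ∣ b) p := by
    intro b
    simp only [eq_iff_iff]
    rw [hdvd]
  have e1 := card_periodic (fun b => ¬ p ∣ b ∧ cv χ (n + q' * w * b) = -1) p per1 B
  have e2 := card_periodic (fun b => ¬ p ∣ b) p per2 B
  have c2 : p.count (fun b => ¬ p ∣ b) = p - 1 := by
    rw [Nat.count_eq_card_filter_range]
    have : (range p).filter (fun b => ¬ p ∣ b) = Ico 1 p := by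
      ext x
      simp only [Finset.mem_filter, Finset.mem_range, Finset.mem_Ico]
      constructor
      · rintro ⟨hx, hx'⟩
        refine ⟨?_, hx⟩
        rcases Nat.eq_zero_or_pos x with h0 | h0
        · exact absurd (by rw [h0]; exact dvd_zero p) hx'
        · exact h0
      · rintro ⟨hx, hx'⟩
        exact ⟨hx', Nat.not_dvd_of_pos_of_lt hx hx'⟩
    rw [this, Nat.card_Ico]
  have c1 : 2 * p.count (fun b => ¬ p ∣ b ∧ cv χ (n + q' * w * b) = -1) ≤ p - 1 := by
    rw [Nat.count_eq_card_filter_range]
    refine le_trans ?_ hblock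
    apply Nat.mul_le_mul_left
    apply Finset.card_le_card
    intro x hx
    simp only [Finset.mem_filter] at hx ⊢
    exact ⟨hx.1, hx.2.2⟩
  have g1 : ((Icc 1 (p * B)).filter (fun b => ¬ p ∣ b ∧ cv χ (n + q' * w * b) = -1)).card =
      B * p.count (fun b => ¬ p ∣ b ∧ cv χ (n + q' * w * b) = -1) := by
    convert e1
  have g2 : ((Icc 1 (p * B)).filter (fun b => ¬ p ∣ b)).card = B * p.count (fun b => ¬ p ∣ b) := by
    convert e2
  rw [g1, g2, c2]
  calc 2 * (B * p.count (fun b => ¬ p ∣ b ∧ cv χ (n + q' * w * b) = -1))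
      = B * (2 * p.count (fun b => ¬ p ∣ b ∧ cv χ (n + q' * w * b) = -1)) := by ring
    _ ≤ B * (p - 1) := Nat.mul_le_mul_left _ c1

end Pool.Agent.E8helper56.SZ
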