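import Pool.Agent.E8helper22.SZ.Stm2

/-!
# SZ: the probabilistic selection with distinct elements and general thresholds (S_COMB2)

The lemmas on weights are those of the file for S_COMB by helper76.
-/

set_option autoImplicit false

namespace Pool.Agent.E8helper56.SZ

open Finset

lemma sum_weight (S A : Finset ℕ) (hA : A ⊆ S) (t : ℝ) :
    ∑ b ∈ S, (if b ∈ A then t else 1) = S.card + (t - 1) * A.card := by
  have h1 : ∀ b ∈ S, (if b ∈ A then t else (1 : ℝ)) = 1 + (if b ∈ A then (t - 1) else 0) := by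
    intro b _
    split_ifs <;> ring
  rw [Finset.sum_congr rfl h1, Finset.sum_add_distrib, ← Finset.sum_filter,
    Finset.filter_mem_eq_inter, Finset.inter_eq_right.mpr hA]
  simp
  ring

lemma prod_weight (k : ℕ) (A : Finset ℕ) (t : ℝ) (f : Fin k → ℕ) :
    ∏ i, (if f i ∈ A then t else 1) = t ^ (univ.filter (fun i => f i ∈ A)).card := by
  rw [Finset.prod_ite]
  simp

lemma markov (S A : Finset ℕ) (hA : A ⊆ S) (k : ℕ) (t : ℝ) (ht : 1 ≤ t) (C : ℝ)
    (h : (S.card : ℝ) + (t - 1) * A.card ≤ C * S.card) (c : ℝ) :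
    (((Fintype.piFinset (fun _ : Fin k => S)).filter
      (fun f => c ≤ ((univ.filter (fun i => f i ∈ A)).card : ℝ))).card : ℝ) * t ^ c ≤
      (C * (S.card : ℝ)) ^ k := by
  have ht0 : 0 < t := by linarith
  have h1 : ∑ f ∈ Fintype.piFinset (fun _ : Fin k => S), ∏ i, (if f i ∈ A then t else 1) =
      ((S.card : ℝ) + (t - 1) * A.card) ^ k := by
    have := Finset.prod_univ_sum (fun _ : Fin k => S) (fun _ b => if b ∈ A then t else (1 : ℝ))
    rw [← this]
    simp only [sum_weight S A hA t]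
    simp
  calc (((Fintype.piFinset (fun _ : Fin k => S)).filter
      (fun f => c ≤ ((univ.filter (fun i => f i ∈ A)).card : ℝ))).card : ℝ) * t ^ c
      = ∑ f ∈ ((Fintype.piFinset (fun _ : Fin k => S)).filter
      (fun f => c ≤ ((univ.filter (fun i => f i ∈ A)).card : ℝ))), t ^ c := by
        rw [Finset.sum_const, nsmul_eq_mul]
    _ ≤ ∑ f ∈ ((Fintype.piFinset (fun _ : Fin k => S)).filter
      (fun f => c ≤ ((univ.filter (fun i => f i ∈ A)).card : ℝ))),
        ∏ i, (if f i ∈ A then t else 1) := by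
        refine Finset.sum_le_sum fun f hf => ?_
        rw [Finset.mem_filter] at hf
        rw [prod_weight, ← Real.rpow_natCast]
        exact Real.rpow_le_rpow_of_exponent_le ht hf.2
    _ ≤ ∑ f ∈ Fintype.piFinset (fun _ : Fin k => S), ∏ i, (if f i ∈ A then t else 1) := by
        refine Finset.sum_le_sum_of_subset_of_nonneg (Finset.filter_subset _ _) fun f _ _ => ?_
        rw [prod_weight]
        positivity
    _ = ((S.card : ℝ) + (t - 1) * A.card) ^ k := h1
    _ ≤ (C * (S.card : ℝ)) ^ k := by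
        refine pow_le_pow_left₀ ?_ h k
        have : 0 ≤ (t - 1) * A.card := mul_nonneg (by linarith) (Nat.cast_nonneg _)
        positivity

/-- the tuples with two given equal entries -/
lemma pair_bound (S : Finset ℕ) (k : ℕ) (i j : Fin k) (hij : i ≠ j) :
    ((Fintype.piFinset (fun _ : Fin k => S)).filter (fun f => f i = f j)).card * S.card ≤
      S.card ^ k := by
  classical
  have hP : (Fintype.piFinset (fun _ : Fin k => S)).card = S.card ^ k := by
    rw [Fintype.card_piFinset]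
    simp
  rw [← hP, ← Finset.card_product]
  refine Finset.card_le_card_of_injOn (fun x => Function.update x.1 i x.2) ?_ ?_
  · intro x hx
    have hx' := Finset.mem_product.mp (Finset.mem_coe.mp hx)
    have hx1 := Fintype.mem_piFinset.mp (Finset.mem_filter.mp hx'.1).1
    refine Finset.mem_coe.mpr (Fintype.mem_piFinset.mpr fun l => ?_)
    change Function.update x.1 i x.2 l ∈ S
    by_cases hl : l = i
    · subst hl
      rw [Function.update_self]
      exact hx'.2
    · rw [Function.update_of_ne hl]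
      exact hx1 l
  · intro x hx y hy hxy
    have hx' := Finset.mem_product.mp (Finset.mem_coe.mp hx)
    have hy' := Finset.mem_product.mp (Finset.mem_coe.mp hy)
    have hx2 : x.1 i = x.1 j := (Finset.mem_filter.mp hx'.1).2
    have hy2 : y.1 i = y.1 j := (Finset.mem_filter.mp hy'.1).2
    have hxy' : Function.update x.1 i x.2 = Function.update y.1 i y.2 := hxy
    have hne : ∀ l, l ≠ i → x.1 l = y.1 l := fun l hl => by
      have h := congrFun hxy' l
      rwa [Function.update_of_ne hl, Function.update_of_ne hl] at h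
    have h2 : x.2 = y.2 := by
      have h := congrFun hxy' i
      rwa [Function.update_self, Function.update_self] at h
    refine Prod.ext ?_ h2
    funext l
    by_cases hl : l = i
    · rw [hl, hx2, hy2]
      exact hne j hij.symm
    · exact hne l hl

/-- the tuples which are not injective -/
lemma noninj (S : Finset ℕ) (k : ℕ) :
    (((Fintype.piFinset (fun _ : Fin k => S)).filter (fun f => ∃ i j, i ≠ j ∧ f i = f j)).card) *
      S.card ≤ k ^ 2 * S.card ^ k := by
  classical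
  have hsub : (Fintype.piFinset (fun _ : Fin k => S)).filter (fun f => ∃ i j, i ≠ j ∧ f i = f j) ⊆
      (univ.filter (fun x : Fin k × Fin k => x.1 ≠ x.2)).biUnion
        (fun x => (Fintype.piFinset (fun _ : Fin k => S)).filter (fun f => f x.1 = f x.2)) := by
    intro f hf
    obtain ⟨hf1, i, j, hij, hf2⟩ := Finset.mem_filter.mp hf
    exact Finset.mem_biUnion.mpr ⟨(i, j), Finset.mem_filter.mpr ⟨Finset.mem_univ _, hij⟩,
      Finset.mem_filter.mpr ⟨hf1, hf2⟩⟩
  have h1 := (Finset.card_le_card hsub).trans Finset.card_biUnion_le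
  have hcd : (univ.filter (fun x : Fin k × Fin k => x.1 ≠ x.2)).card ≤ k ^ 2 := by
    refine (Finset.card_le_univ _).trans ?_
    rw [Fintype.card_prod, Fintype.card_fin, sq]
  calc _ ≤ (∑ x ∈ univ.filter (fun x : Fin k × Fin k => x.1 ≠ x.2),
        ((Fintype.piFinset (fun _ : Fin k => S)).filter (fun f => f x.1 = f x.2)).card) * S.card :=
        Nat.mul_le_mul_right _ h1
    _ = ∑ x ∈ univ.filter (fun x : Fin k × Fin k => x.1 ≠ x.2),
        ((Fintype.piFinset (fun _ : Fin k => S)).filter (fun f => f x.1 = f x.2)).card * S.card := by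
        rw [Finset.sum_mul]
    _ ≤ ∑ x ∈ univ.filter (fun x : Fin k × Fin k => x.1 ≠ x.2), S.card ^ k := by
        refine Finset.sum_le_sum fun x hx => ?_
        exact pair_bound S k x.1 x.2 (Finset.mem_filter.mp hx).2
    _ = (univ.filter (fun x : Fin k × Fin k => x.1 ≠ x.2)).card * S.card ^ k := by
        rw [Finset.sum_const, smul_eq_mul]
    _ ≤ k ^ 2 * S.card ^ k := Nat.mul_le_mul_right _ hcd

theorem t_COMB2 : Pool.Agent.E8helper22.SZ.S_COMB2 := by
  intro S J N k E G η c₁ c₂ lam hS hη hη1 hlam hE hG hlt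
  classical
  have hM : 0 < (S.card : ℝ) := by exact_mod_cast hS.card_pos
  have hlam0 : 0 < lam := by linarith
  set P := Fintype.piFinset (fun _ : Fin k => S) with hP
  have hPc : (P.card : ℝ) = (S.card : ℝ) ^ k := by
    rw [hP, Fintype.card_piFinset]
    simp
  set BE : ℕ → Finset (Fin k → ℕ) := fun j => P.filter
      (fun f => c₁ * (k : ℝ) ≤ ((univ.filter (fun i => f i ∈ E j)).card : ℝ)) with hBE
  set BG : ℕ → Finset (Fin k → ℕ) := fun n => P.filter
      (fun f => c₂ * (k : ℝ) ≤ ((univ.filter (fun i => f i ∈ G n)).card : ℝ)) with hBG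
  set BI : Finset (Fin k → ℕ) := P.filter (fun f => ∃ i j, i ≠ j ∧ f i = f j) with hBI
  have h3 : (0 : ℝ) < lam ^ (c₁ * (k : ℝ)) := Real.rpow_pos_of_pos hlam0 _
  have hbe : ∀ j ∈ J, ((BE j).card : ℝ) ≤
      (S.card : ℝ) ^ k * (((1 + lam) / 2) ^ k / lam ^ (c₁ * (k : ℝ))) := by
    intro j hj
    have h1 := markov S (E j) (hE j hj).1 k lam hlam ((1 + lam) / 2) (by
      have h2 : (2 : ℝ) * (E j).card ≤ S.card := by exact_mod_cast (hE j hj).2
      nlinarith [mul_le_mul_of_nonneg_left h2 (sub_nonneg.mpr hlam)]) (c₁ * (k : ℝ))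
    rw [mul_pow] at h1
    have : ((BE j).card : ℝ) ≤ (((1 + lam) / 2) ^ k * (S.card : ℝ) ^ k) / lam ^ (c₁ * (k : ℝ)) := by
      rw [le_div_iff₀ h3]
      exact h1
    calc ((BE j).card : ℝ) ≤ (((1 + lam) / 2) ^ k * (S.card : ℝ) ^ k) / lam ^ (c₁ * (k : ℝ)) := this
      _ = _ := by ring
  have hbg : ∀ n ∈ N, ((BG n).card : ℝ) ≤ (S.card : ℝ) ^ k * (2 ^ k * η ^ (c₂ * (k : ℝ))) := by
    intro n hn
    have hinv : 1 ≤ η⁻¹ := (one_le_inv₀ hη).mpr hη1
    have h1 := markov S (G n) (hG n hn).1 k η⁻¹ hinv 2 (by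
      have h2 := (hG n hn).2
      have h4 : η⁻¹ * (G n).card ≤ S.card := by
        rw [inv_mul_le_iff₀ hη]
        exact h2
      have h5 : (0 : ℝ) ≤ (G n).card := Nat.cast_nonneg _
      nlinarith) (c₂ * (k : ℝ))
    rw [Real.inv_rpow hη.le, mul_pow] at h1
    have hpos : 0 < η ^ (c₂ * (k : ℝ)) := Real.rpow_pos_of_pos hη _
    rw [← div_eq_mul_inv, div_le_iff₀ hpos] at h1
    calc ((BG n).card : ℝ) ≤ _ := h1
      _ = _ := by ring
  have hbi : (BI.card : ℝ) ≤ (S.card : ℝ) ^ k * ((k : ℝ) ^ 2 / S.card) := by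
    have h1 : (BI.card : ℝ) * S.card ≤ (k : ℝ) ^ 2 * (S.card : ℝ) ^ k := by
      exact_mod_cast noninj S k
    have h2 : (BI.card : ℝ) ≤ ((k : ℝ) ^ 2 * (S.card : ℝ) ^ k) / S.card := by
      rw [le_div_iff₀ hM]
      exact h1
    calc (BI.card : ℝ) ≤ _ := h2
      _ = _ := by ring
  by_contra hno
  push Not at hno
  have hcov : P ⊆ (J.biUnion BE ∪ N.biUnion BG) ∪ BI := by
    intro f hf
    rw [Finset.mem_union, Finset.mem_union, Finset.mem_biUnion, Finset.mem_biUnion]
    by_contra hcon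
    push Not at hcon
    obtain ⟨⟨hc1, hc2⟩, hc3⟩ := hcon
    have hinj : Function.Injective f := by
      intro a b hab
      by_contra hne
      exact hc3 (Finset.mem_filter.mpr ⟨hf, a, b, hne, hab⟩)
    obtain ⟨n, hn, hn2⟩ := hno f hinj (fun i => Fintype.mem_piFinset.mp hf i) (fun j hj => by
      by_contra h6
      push Not at h6
      exact hc1 j hj (Finset.mem_filter.mpr ⟨hf, h6⟩))
    exact hc2 n hn (Finset.mem_filter.mpr ⟨hf, hn2⟩)
  have hc1 : (P.card : ℝ) ≤ ∑ j ∈ J, ((BE j).card : ℝ) + ∑ n ∈ N, ((BG n).card : ℝ) +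
      (BI.card : ℝ) := by
    have h7 : P.card ≤ (∑ j ∈ J, (BE j).card + ∑ n ∈ N, (BG n).card) + BI.card :=
      (Finset.card_le_card hcov).trans ((Finset.card_union_le _ _).trans
        (Nat.add_le_add_right ((Finset.card_union_le _ _).trans
        (add_le_add Finset.card_biUnion_le Finset.card_biUnion_le)) _))
    exact_mod_cast h7
  have hc2 : ∑ j ∈ J, ((BE j).card : ℝ) ≤ J.card *
      ((S.card : ℝ) ^ k * (((1 + lam) / 2) ^ k / lam ^ (c₁ * (k : ℝ)))) := by
    rw [← nsmul_eq_mul]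
    exact Finset.sum_le_card_nsmul _ _ _ hbe
  have hc3 : ∑ n ∈ N, ((BG n).card : ℝ) ≤ N.card *
      ((S.card : ℝ) ^ k * (2 ^ k * η ^ (c₂ * (k : ℝ)))) := by
    rw [← nsmul_eq_mul]
    exact Finset.sum_le_card_nsmul _ _ _ hbg
  have hMk : 0 < (S.card : ℝ) ^ k := by positivity
  have h8 : (S.card : ℝ) ^ k ≤ (S.card : ℝ) ^ k *
      ((J.card : ℝ) * (((1 + lam) / 2) ^ k / lam ^ (c₁ * (k : ℝ))) +
        N.card * (2 ^ k * η ^ (c₂ * (k : ℝ))) + (k : ℝ) ^ 2 / S.card) := by
    rw [hPc] at hc1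
    calc (S.card : ℝ) ^ k ≤ J.card *
          ((S.card : ℝ) ^ k * (((1 + lam) / 2) ^ k / lam ^ (c₁ * (k : ℝ)))) + N.card *
          ((S.card : ℝ) ^ k * (2 ^ k * η ^ (c₂ * (k : ℝ)))) +
          (S.card : ℝ) ^ k * ((k : ℝ) ^ 2 / S.card) := by linarith
      _ = _ := by ring
  have h9 : (S.card : ℝ) ^ k *
      ((J.card : ℝ) * (((1 + lam) / 2) ^ k / lam ^ (c₁ * (k : ℝ))) +
        N.card * (2 ^ k * η ^ (c₂ * (k : ℝ))) + (k : ℝ) ^ 2 / S.card) < (S.card : ℝ) ^ k * 1 :=
    mul_lt_mul_of_pos_left hlt hMk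
  linarith

end Pool.Agent.E8helper56.SZ
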